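import Pool.Agent.K4H30.DI.Limit

/-!
# MP_0f3ab5_an, Q1: `det (A² + |AB|^p) ≥ det (A² + A^p B^p)` for `0 ≤ p ≤ 2`

Outline of the proof, for positive definite `A`, `B` and `0 < p < 2`.  Put `H = A²`, `q = p / 2`.
For positive definite `P`, `Q` let

`D(P, Q) = inf {log det Z - log det P : Z ≥ P, Z ≥ Q}`.

* `D(C P C, C Q C) ≤ D(P, Q)` for positive definite `C`;
* `D(P^r, Q^r) ≤ r D(P, Q)` for `0 < r ≤ 1`, as `t ↦ t^r` is operator monotone;
* `D(P, R) ≤ D(P, Q) + D(Q, R)`: if `Z₁ ≥ P, Q` and `Z₂ ≥ Q, R`, then `Z₁ + Z₂ - Q ≥ P, R` and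
  `det (Z₁ + Z₂ - Q) det Q ≤ det Z₁ det Z₂`.

The map `f(X) = (B X B)^q` has the fixed point `X = B^{2q/(1-q)}`, and so
`D(H, X) ≤ D(H, f(H)) + D(f(H), f(X)) ≤ D(H, f(H)) + q D(H, X)`, that is
`(1 - q) D(H, X) ≤ D(H, f(H))`.  With `X^{1-q} = B^{2q}` this gives

`D(H^{1-q}, B^{2q}) ≤ D(H, (B H B)^q)`,

and, with `B` replaced by `c B`, the same for `s B^{2q}` and `s (B H B)^q`, for every `s > 0`.
One has `D(P, Q) = ∑ log max(1, y_i)`, where the `y_i` are the eigenvalues of
`P^{-1/2} Q P^{-1/2}`.  As `log (1 + y)` is the integral of `log max(1, s y) / (1 + s)²` over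
`s > 0`, it follows that `det (1 + P^{-1/2} Q P^{-1/2})` is at most the same quantity for
`P' = H`, `Q' = (B H B)^q` when `P = H^{1-q}`, `Q = B^{2q}`.  Multiplication by
`det H = det (H^q) det (H^{1-q})` gives the claim.  The remaining cases follow by continuity.
-/

set_option autoImplicit false

open Matrix
open scoped MatrixOrder ComplexOrder Matrix.Norms.L2Operator

namespace Pool.Agent.Results.MP_0f3ab5_an.DeterminantalInequality

/-- Q1, positive answer: for all positive semidefinite complex `n × n` matrices `A`, `B` and every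
real `p` with `0 ≤ p ≤ 2`, `det (A² + A^p B^p) ≤ det (A² + |AB|^p)`.  Here `A ^ p` (with the real
exponent `p`) is the power given by the spectral calculus, with `A ^ 0 = 1`, and
`CFC.abs (A * B) = ((A * B)ᴴ * (A * B))^{1/2}`. The inequality `z ≤ w` of complex numbers means
that `w - z` is a nonnegative real number. -/
theorem result (n : ℕ) (A B : Matrix (Fin n) (Fin n) ℂ) (hA : A.PosSemidef) (hB : B.PosSemidef)
    (p : ℝ) (hp : 0 ≤ p) (hp2 : p ≤ 2) :
    (A ^ 2 + A ^ p * B ^ p).det ≤ (A ^ 2 + CFC.abs (A * B) ^ p).det :=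
  K4H30.DI.final hA hB hp hp2

end Pool.Agent.Results.MP_0f3ab5_an.DeterminantalInequality
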